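import Mathlib

set_option autoImplicit false

namespace Pool.Agent.MP_843cf2_an.Own

open MeasureTheory

variable {G : Type*} [CommGroup G] [TopologicalSpace G]

/-- The restriction algebra `A(Λ)`: restrictions to `Λ` of Fourier transforms of integrable
functions on `G`. -/
def restrAlg [MeasurableSpace G] (μ : Measure G) (Λ : Set (PontryaginDual G)) : Set (Λ → ℂ) :=
  {φ | ∃ f : G → ℂ, Integrable f μ ∧
    ∀ γ : Λ, φ γ = ∫ x, f x * (starRingEnd ℂ) ((γ.1 x : Circle) : ℂ) ∂μ}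

/-- `F : [-1,1] → ℂ` operates on `A(Λ)`. -/
def OperatesOn [MeasurableSpace G] (μ : Measure G) (Λ : Set (PontryaginDual G))
    (F : Set.Icc (-1 : ℝ) 1 → ℂ) : Prop :=
  ∀ φ : Λ → Set.Icc (-1 : ℝ) 1, (∀ γ, -1 < (φ γ : ℝ) ∧ (φ γ : ℝ) < 1) →
    (fun γ => ((φ γ : ℝ) : ℂ)) ∈ restrAlg μ Λ → (fun γ => F (φ γ)) ∈ restrAlg μ Λ

/-- `Λ` is a Sidon set. -/
def IsSidon (Λ : Set (PontryaginDual G)) : Prop :=
  ∃ C : ℝ, 0 < C ∧ ∀ a : Λ →₀ ℂ,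
    ∑ γ ∈ a.support, ‖a γ‖ ≤ C * ⨆ x : G, ‖∑ γ ∈ a.support, a γ * ((γ.1 x : Circle) : ℂ)‖

/-- `F` is the sum of a convergent power series on a neighbourhood of `0`. -/
def AnalyticNearZero (F : Set.Icc (-1 : ℝ) 1 → ℂ) : Prop :=
  ∃ r : ℝ, 0 < r ∧ ∃ c : ℕ → ℂ, ∀ x : Set.Icc (-1 : ℝ) 1, |(x : ℝ)| < r →
    HasSum (fun n : ℕ => c n * ((x : ℝ) : ℂ) ^ n) (F x)

end Pool.Agent.MP_843cf2_an.Own
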